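import Mathlib
import Pool.Agent.H86.Heis

set_option autoImplicit false

namespace Pool.Agent.Results.MP_3a9d0e_gt.NotClosed

/-- A non-closed subgroup of the Lie group `GL(3, ℝ)` all of whose closed zero-dimensional
subgroups are discrete. -/
theorem result :
    ∃ G : Subgroup (GL (Fin 3) ℝ),
      (∀ S : Subgroup G, IsClosed (S : Set G) →
        TopologicalSpace.IsTopologicalBasis {U : Set S | IsClopen U} → DiscreteTopology S) ∧
      ¬ IsClosed (G : Set (GL (Fin 3) ℝ)) :=
  ⟨Pool.Agent.H86.Heis.G, Pool.Agent.H86.Heis.discrete, Pool.Agent.H86.Heis.not_closed⟩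

end Pool.Agent.Results.MP_3a9d0e_gt.NotClosed
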